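import Pool.Agent.Q215.WR.Stm

set_option autoImplicit false

open Set Topology Filter

namespace Pool.Agent.Q220.WR

open Pool.Agent.Q215.WR

theorem t_baf : S_baf := by
  intro α β _ _ P h0 hforth hback
  classical
  obtain ⟨enc⟩ := nonempty_encodable (α ⊕ β)
  -- one step
  have hstep : ∀ (c : Option (α ⊕ β)) (s : {s : Set (α × β) // s.Finite ∧ P s}),
      ∃ s' : {s : Set (α × β) // s.Finite ∧ P s}, s.1 ⊆ s'.1 ∧
        (∀ a, c = some (Sum.inl a) → ∃ b, (a, b) ∈ s'.1) ∧
        (∀ b, c = some (Sum.inr b) → ∃ a, (a, b) ∈ s'.1) := by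
    intro c s
    rcases c with _ | (a | b)
    · exact ⟨s, subset_rfl, by simp, by simp⟩
    · obtain ⟨b, hb⟩ := hforth s.1 s.2.1 s.2.2 a
      refine ⟨⟨insert (a, b) s.1, s.2.1.insert _, hb⟩, subset_insert _ _, ?_, by simp⟩
      intro a' ha'
      have : a = a' := by simpa using ha'
      subst this
      exact ⟨b, mem_insert _ _⟩
    · obtain ⟨a, ha⟩ := hback s.1 s.2.1 s.2.2 b
      refine ⟨⟨insert (a, b) s.1, s.2.1.insert _, ha⟩, subset_insert _ _, by simp, ?_⟩
      intro b' hb'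
      have : b = b' := by simpa using hb'
      subst this
      exact ⟨a, mem_insert _ _⟩
  choose nxt hsub hinl hinr using hstep
  let S : ℕ → {s : Set (α × β) // s.Finite ∧ P s} := fun n =>
    Nat.rec ⟨∅, finite_empty, h0⟩ (fun k s => nxt (enc.decode k) s) n
  have hS : ∀ n, S (n + 1) = nxt (enc.decode n) (S n) := fun n => rfl
  have hmono : Monotone fun n => (S n).1 := by
    refine monotone_nat_of_le_succ fun n => ?_
    show (S n).1 ⊆ (S (n + 1)).1
    rw [hS]
    exact hsub _ _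
  refine ⟨⋃ n, (S n).1, ?_, ?_, ?_⟩
  · intro a
    have hd : enc.decode (enc.encode (Sum.inl a : α ⊕ β)) = some (Sum.inl a) := enc.encodek _
    obtain ⟨b, hb⟩ := hinl _ (S (enc.encode (Sum.inl a : α ⊕ β))) a hd
    exact ⟨b, mem_iUnion.mpr ⟨enc.encode (Sum.inl a : α ⊕ β) + 1, by rw [hS]; exact hb⟩⟩
  · intro b
    have hd : enc.decode (enc.encode (Sum.inr b : α ⊕ β)) = some (Sum.inr b) := enc.encodek _
    obtain ⟨a, ha⟩ := hinr _ (S (enc.encode (Sum.inr b : α ⊕ β))) b hd
    exact ⟨a, mem_iUnion.mpr ⟨enc.encode (Sum.inr b : α ⊕ β) + 1, by rw [hS]; exact ha⟩⟩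
  · intro t ht htf
    have : ∃ n, t ⊆ (S n).1 := by
      induction t, htf using Set.Finite.induction_on with
      | empty => exact ⟨0, empty_subset _⟩
      | insert _ _ ih =>
        obtain ⟨n, hn⟩ := ih ((subset_insert _ _).trans ht)
        obtain ⟨m, hm⟩ := mem_iUnion.mp (ht (mem_insert _ _))
        refine ⟨max n m, insert_subset (hmono (le_max_right n m) hm)
          (hn.trans (hmono (le_max_left n m)))⟩
    obtain ⟨n, hn⟩ := this
    exact ⟨(S n).1, hn, (S n).2.1, (S n).2.2⟩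

end Pool.Agent.Q220.WR
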