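import Pool.Agent.Q215.WR.Stm

set_option autoImplicit false

open Set Topology Filter

namespace Pool.Agent.Q220.WR

open Pool.Agent.Q215.WR

/-- The fibres of a monotone continuous surjection are compact intervals. -/
theorem fib (p : ℝ → ℝ) (hm : Monotone p) (hc : Continuous p) (hs : Function.Surjective p) :
    ∃ a b : ℝ → ℝ, (∀ y, a y ≤ b y) ∧ ∀ x y, p x = y ↔ a y ≤ x ∧ x ≤ b y := by
  have hcl : ∀ y, IsClosed (p ⁻¹' {y}) := fun y => isClosed_singleton.preimage hc
  have hne : ∀ y, (p ⁻¹' {y}).Nonempty := fun y => (hs y).imp fun x hx => hx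
  have hbb : ∀ y, BddBelow (p ⁻¹' {y}) := by
    intro y
    obtain ⟨x₀, hx₀⟩ := hs (y - 1)
    refine ⟨x₀, fun x hx => ?_⟩
    by_contra hlt
    have h1 := hm (not_le.mp hlt).le
    have h2 : p x = y := hx
    rw [h2, hx₀] at h1
    linarith
  have hba : ∀ y, BddAbove (p ⁻¹' {y}) := by
    intro y
    obtain ⟨x₀, hx₀⟩ := hs (y + 1)
    refine ⟨x₀, fun x hx => ?_⟩
    by_contra hlt
    have h1 := hm (not_le.mp hlt).le
    have h2 : p x = y := hx
    rw [h2, hx₀] at h1
    linarith
  refine ⟨fun y => sInf (p ⁻¹' {y}), fun y => sSup (p ⁻¹' {y}),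
    fun y => csInf_le_csSup (hne y) (hbb y) (hba y), fun x y => ⟨fun h => ?_, fun h => ?_⟩⟩
  · exact ⟨csInf_le (hbb y) h, le_csSup (hba y) h⟩
  · have h1 : p (sInf (p ⁻¹' {y})) = y := (hcl y).csInf_mem (hne y) (hbb y)
    have h2 : p (sSup (p ⁻¹' {y})) = y := (hcl y).csSup_mem (hne y) (hba y)
    exact le_antisymm ((hm h.2).trans h2.le) (h1.ge.trans (hm h.1))

theorem t_lift : S_lift := by
  intro p p' hm hc hs hm' hc' hs' hflat
  obtain ⟨a, b, hab, hfib⟩ := fib p hm hc hs
  obtain ⟨a', b', hab', hfib'⟩ := fib p' hm' hc' hs'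
  have hfl : ∀ y, a' y < b' y → a y < b y := by
    intro y hy
    obtain ⟨u, v, huv, hu, hv⟩ := hflat y ⟨a' y, b' y, hy, (hfib' _ _).mpr ⟨le_rfl, hy.le⟩,
      (hfib' _ _).mpr ⟨hy.le, le_rfl⟩⟩
    exact ((hfib _ _).mp hu).1.trans_lt (huv.trans_le ((hfib _ _).mp hv).2)
  let f : ℝ → ℝ := fun x => a' (p x) + (x - a (p x)) / (b (p x) - a (p x)) *
    (b' (p x) - a' (p x))
  have hmem : ∀ x, a (p x) ≤ x ∧ x ≤ b (p x) := fun x => (hfib x (p x)).mp rfl
  have hq0 : ∀ x, 0 ≤ (x - a (p x)) / (b (p x) - a (p x)) := fun x =>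
    div_nonneg (sub_nonneg.mpr (hmem x).1) (sub_nonneg.mpr (hab _))
  have hq1 : ∀ x, (x - a (p x)) / (b (p x) - a (p x)) ≤ 1 := fun x =>
    div_le_one_of_le₀ (by linarith [(hmem x).2]) (sub_nonneg.mpr (hab _))
  have hpf : ∀ x, p' (f x) = p x := by
    intro x
    rw [hfib']
    have h0 : 0 ≤ b' (p x) - a' (p x) := sub_nonneg.mpr (hab' _)
    constructor
    · have := mul_nonneg (hq0 x) h0
      simp only [f]
      linarith
    · have := mul_le_mul_of_nonneg_right (hq1 x) h0
      simp only [f]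
      linarith
  have hfm : Monotone f := by
    intro x y hxy
    rcases (hm hxy).lt_or_eq with hlt | heq
    · by_contra hcon
      have h1 := hm' (not_le.mp hcon).le
      rw [hpf, hpf] at h1
      exact absurd hlt (not_lt.mpr h1)
    · simp only [f]
      rw [heq]
      have h0 : 0 ≤ b' (p y) - a' (p y) := sub_nonneg.mpr (hab' _)
      have h1 : 0 ≤ b (p y) - a (p y) := sub_nonneg.mpr (hab _)
      have h2 : (x - a (p y)) / (b (p y) - a (p y)) ≤ (y - a (p y)) / (b (p y) - a (p y)) :=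
        div_le_div_of_nonneg_right (by linarith) h1
      have := mul_le_mul_of_nonneg_right h2 h0
      linarith
  have hfs : Function.Surjective f := by
    intro w
    set y := p' w with hy
    have hw := (hfib' w y).mp rfl
    rcases (hab' y).lt_or_eq with hlt | heq
    · have hlt2 := hfl y hlt
      have hd : b y - a y ≠ 0 := (sub_pos.mpr hlt2).ne'
      have hd' : b' y - a' y ≠ 0 := (sub_pos.mpr hlt).ne'
      set x := a y + (w - a' y) / (b' y - a' y) * (b y - a y) with hx
      have ht0 : 0 ≤ (w - a' y) / (b' y - a' y) := div_nonneg (by linarith) (by linarith)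
      have ht1 : (w - a' y) / (b' y - a' y) ≤ 1 := div_le_one_of_le₀ (by linarith) (by linarith)
      have hpx : p x = y := by
        rw [hfib]
        constructor
        · have := mul_nonneg ht0 (sub_pos.mpr hlt2).le
          linarith
        · have := mul_le_mul_of_nonneg_right ht1 (sub_pos.mpr hlt2).le
          linarith
      refine ⟨x, ?_⟩
      simp only [f]
      rw [hpx, hx]
      field_simp
      ring
    · obtain ⟨x, hx⟩ := hs y
      refine ⟨x, ?_⟩
      have h1 := (hfib' (f x) y).mp (by rw [hpf, hx])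
      linarith [h1.1, h1.2, hw.1, hw.2]
  exact ⟨f, hfm.continuous_of_surjective hfs, hpf⟩

end Pool.Agent.Q220.WR
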