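import Pool.Agent.Q215.WR.Stm

set_option autoImplicit false

open Set Topology Filter

namespace Pool.Agent.Q220.WR

open Pool.Agent.Q215.WR

theorem t_plat : S_plat := by
  intro N hN
  classical
  obtain ⟨w, hw0, c, hc, -⟩ := hN.exists_pos_hasSum_le (ε := 1) one_pos
  have hsum : Summable fun n : N => w n := hc.summable
  have hs1 : ∀ (q : ℝ → Prop) [DecidablePred q],
      Summable fun n : N => if q n then w n else 0 := by
    intro q _
    refine Summable.of_nonneg_of_le (fun n => ?_) (fun n => ?_) hsum
    · split_ifs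
      · exact (hw0 n).le
      · exact le_rfl
    · split_ifs
      · exact le_rfl
      · exact (hw0 n).le
  let J : ℝ → ℝ := fun y => y + ∑' n : N, if (n : ℝ) < y then w n else 0
  let J' : ℝ → ℝ := fun y => y + ∑' n : N, if (n : ℝ) ≤ y then w n else 0
  have hJJ' : ∀ y, J y ≤ J' y := by
    intro y
    have hA := hs1 (fun t => t < y)
    have hB := hs1 (fun t => t ≤ y)
    refine add_le_add le_rfl (Summable.tsum_le_tsum (fun n => ?_) hA hB)
    by_cases h : (n : ℝ) < y
    · rw [if_pos h, if_pos h.le]
    · rw [if_neg h]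
      split_ifs
      · exact (hw0 n).le
      · exact le_rfl
  have hJ'J : ∀ y z, y < z → J' y < J z := by
    intro y z hyz
    have hA := hs1 (fun t => t ≤ y)
    have hB := hs1 (fun t => t < z)
    refine add_lt_add_of_lt_of_le hyz (Summable.tsum_le_tsum (fun n => ?_) hA hB)
    by_cases h : (n : ℝ) ≤ y
    · rw [if_pos h, if_pos (h.trans_lt hyz)]
    · rw [if_neg h]
      split_ifs
      · exact (hw0 n).le
      · exact le_rfl
  have hJ0 : ∀ y, y ≤ J y := fun y =>
    le_add_of_nonneg_right (tsum_nonneg fun n => by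
      split_ifs
      · exact (hw0 n).le
      · exact le_rfl)
  have hJc : ∀ y, J y ≤ y + c := fun y => by
    refine add_le_add le_rfl ?_
    rw [← hc.tsum_eq]
    have hA := hs1 (fun t => t < y)
    refine Summable.tsum_le_tsum (fun n => ?_) hA hsum
    split_ifs
    · exact le_rfl
    · exact (hw0 n).le
  have hJm : StrictMono J := fun y z hyz => (hJJ' y).trans_lt (hJ'J y z hyz)
  let p : ℝ → ℝ := fun x => sSup {y | J y ≤ x}
  have hne : ∀ x, {y | J y ≤ x}.Nonempty := fun x => ⟨x - c, by
    have := hJc (x - c)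
    simp only [mem_ofPred_eq]
    linarith⟩
  have hbd : ∀ x, BddAbove {y | J y ≤ x} := fun x => ⟨x, fun y hy => (hJ0 y).trans hy⟩
  have hpm : Monotone p := fun x x' hxx' =>
    csSup_le_csSup (hbd x') (hne x) fun y hy => le_trans hy hxx'
  have hpJ : ∀ x y, J y ≤ x → x ≤ J' y → p x = y := by
    intro x y h1 h2
    refine le_antisymm (csSup_le (hne x) fun z hz => ?_) (le_csSup (hbd x) h1)
    by_contra hlt
    have := hJ'J y z (not_le.mp hlt)
    have hz' : J z ≤ x := hz
    linarith
  have hps : Function.Surjective p := fun y => ⟨J y, hpJ _ _ le_rfl (hJJ' y)⟩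
  refine ⟨p, hpm, hpm.continuous_of_surjective hps, hps, fun y => ⟨fun h => ?_, fun h => ?_⟩⟩
  · by_contra hyN
    obtain ⟨a, b, hab, ha, hb⟩ := h
    -- `J` is continuous at `y`
    have hcont : Tendsto J (𝓝 y) (𝓝 (J y)) := by
      refine tendsto_id.add (tendsto_tsum_of_dominated_convergence (bound := fun n : N => w n)
        hsum (fun n => ?_) (Eventually.of_forall fun z n => ?_))
      · have hne' : (n : ℝ) ≠ y := fun h => hyN (h ▸ n.2)
        rcases lt_or_gt_of_ne hne' with hlt | hlt
        · have h1 : ∀ᶠ z in 𝓝 y, (n : ℝ) < z := lt_mem_nhds hlt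
          refine Tendsto.congr' (h1.mono fun z hz => ?_) tendsto_const_nhds
          dsimp only
          rw [if_pos hlt, if_pos hz]
        · have h1 : ∀ᶠ z in 𝓝 y, z < (n : ℝ) := gt_mem_nhds hlt
          refine Tendsto.congr' (h1.mono fun z hz => ?_) tendsto_const_nhds
          dsimp only
          rw [if_neg (not_lt.mpr hlt.le), if_neg (not_lt.mpr hz.le)]
      · split_ifs
        · rw [Real.norm_of_nonneg (hw0 n).le]
        · rw [norm_zero]; exact (hw0 n).le
    have h1 : J y ≤ a := by
      have hlim : Tendsto J (𝓝[<] y) (𝓝 (J y)) := hcont.mono_left nhdsWithin_le_nhds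
      refine le_of_tendsto hlim (eventually_nhdsWithin_of_forall fun z hz => ?_)
      have hz' : z < p a := by rw [ha]; exact hz
      obtain ⟨t, ht, hzt⟩ := exists_lt_of_lt_csSup (hne a) hz'
      exact (hJm.monotone hzt.le).trans ht
    have h2 : b ≤ J y := by
      have hlim : Tendsto J (𝓝[>] y) (𝓝 (J y)) := hcont.mono_left nhdsWithin_le_nhds
      refine ge_of_tendsto hlim (eventually_nhdsWithin_of_forall fun z hz => ?_)
      by_contra hcon
      have h3 : z ≤ p b := le_csSup (hbd b) (not_le.mp hcon).le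
      rw [hb] at h3
      exact absurd hz (not_lt.mpr h3)
    linarith
  · have hlt : J y < J' y := by
      refine add_lt_add_of_le_of_lt le_rfl ?_
      have hA := hs1 (fun t => t < y)
      have hB := hs1 (fun t => t ≤ y)
      refine Summable.tsum_lt_tsum (i := ⟨y, h⟩) (fun n => ?_) ?_ hA hB
      · by_cases h : (n : ℝ) < y
        · rw [if_pos h, if_pos h.le]
        · rw [if_neg h]
          split_ifs
          · exact (hw0 n).le
          · exact le_rfl
      · simp [hw0 y]
    exact ⟨J y, J' y, hlt, hpJ _ _ le_rfl hlt.le, hpJ _ _ hlt.le le_rfl⟩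

end Pool.Agent.Q220.WR
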