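import Pool.Agent.Q215.WR.Stm

set_option autoImplicit false

open Set Topology Filter

namespace Pool.Agent.Q220.WR

open Pool.Agent.Q215.WR

/-- distance to the nearest integer -/
noncomputable def tau (x : ℝ) : ℝ := |x - round x|

theorem tau_nonneg (x : ℝ) : 0 ≤ tau x := abs_nonneg _

theorem tau_le (x : ℝ) : tau x ≤ 1 / 2 := abs_sub_round x

theorem tau_lip (x y : ℝ) : tau x ≤ tau y + |x - y| := by
  have h1 : |x - round x| ≤ |x - round y| := round_le x (round y)
  have h2 : |x - round y| ≤ |x - y| + |y - round y| := abs_sub_le _ _ _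
  unfold tau
  linarith

theorem tau_lip' (x y : ℝ) : |tau x - tau y| ≤ |x - y| := by
  rw [abs_le]
  constructor
  · have := tau_lip y x
    rw [abs_sub_comm] at this
    linarith
  · have := tau_lip x y
    linarith

theorem tau_cont : Continuous tau := by
  have : LipschitzWith 1 tau := LipschitzWith.of_dist_le_mul fun x y => by
    rw [Real.dist_eq, Real.dist_eq]
    simpa using tau_lip' x y
  exact this.continuous

theorem tau_int (m : ℤ) : tau m = 0 := by
  unfold tau
  rw [round_intCast]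
  simp

theorem tau_half (m : ℤ) : tau (m + 1 / 2) = 1 / 2 := by
  refine le_antisymm (tau_le _) ?_
  unfold tau
  set k := round ((m : ℝ) + 1 / 2) with hk
  rcases le_or_gt k m with h | h
  · have h1 : (k : ℝ) ≤ m := by exact_mod_cast h
    exact le_trans (by linarith) (le_abs_self _)
  · have h1 : (m : ℝ) + 1 ≤ k := by exact_mod_cast h
    exact le_trans (by linarith) (neg_le_abs _)

/-- the terms -/
noncomputable def trm (n : ℕ) (x : ℝ) : ℝ := (1 / 10) ^ n * tau (10 ^ (4 * n) * x)

theorem trm_nonneg (n : ℕ) (x : ℝ) : 0 ≤ trm n x := mul_nonneg (by positivity) (tau_nonneg _)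

theorem trm_le (n : ℕ) (x : ℝ) : trm n x ≤ (1 / 2) * (1 / 10) ^ n := by
  unfold trm
  rw [mul_comm (1 / 2 : ℝ)]
  exact mul_le_mul_of_nonneg_left (tau_le _) (by positivity)

theorem sum_geo : Summable fun n : ℕ => (1 / 2 : ℝ) * (1 / 10) ^ n :=
  (summable_geometric_of_lt_one (by norm_num) (by norm_num)).mul_left _

theorem sum_trm (x : ℝ) : Summable fun n => trm n x :=
  Summable.of_nonneg_of_le (fun n => trm_nonneg n x) (fun n => trm_le n x) sum_geo

theorem trm_lip (n : ℕ) (x y : ℝ) : |trm n x - trm n y| ≤ 1000 ^ n * |x - y| := by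
  unfold trm
  rw [← mul_sub, abs_mul, abs_of_nonneg (by positivity : (0 : ℝ) ≤ (1 / 10) ^ n)]
  calc (1 / 10 : ℝ) ^ n * |tau (10 ^ (4 * n) * x) - tau (10 ^ (4 * n) * y)|
      ≤ (1 / 10 : ℝ) ^ n * |10 ^ (4 * n) * x - 10 ^ (4 * n) * y| :=
        mul_le_mul_of_nonneg_left (tau_lip' _ _) (by positivity)
    _ = (1 / 10 : ℝ) ^ n * 10 ^ (4 * n) * |x - y| := by
        rw [← mul_sub, abs_mul, abs_of_nonneg (by positivity : (0 : ℝ) ≤ 10 ^ (4 * n))]
        ring
    _ = 1000 ^ n * |x - y| := by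
        congr 1
        rw [pow_mul, ← mul_pow]
        norm_num

theorem head_lip (n : ℕ) (x y : ℝ) :
    |∑ k ∈ Finset.range n, trm k x - ∑ k ∈ Finset.range n, trm k y| ≤
      1000 ^ n / 999 * |x - y| := by
  rw [← Finset.sum_sub_distrib]
  refine (Finset.abs_sum_le_sum_abs _ _).trans ?_
  refine (Finset.sum_le_sum fun k _ => trm_lip k x y).trans ?_
  rw [← Finset.sum_mul]
  refine mul_le_mul_of_nonneg_right ?_ (abs_nonneg _)
  rw [geom_sum_eq (by norm_num)]
  norm_num
  linarith

theorem tail_nonneg (n : ℕ) (x : ℝ) : 0 ≤ ∑' k, trm (k + n) x :=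
  tsum_nonneg fun _ => trm_nonneg _ _

theorem tail_le (n : ℕ) (x : ℝ) : ∑' k, trm (k + n) x ≤ (5 / 9) * (1 / 10) ^ n := by
  have h1 : Summable fun k => trm (k + n) x := (summable_nat_add_iff n).mpr (sum_trm x)
  have h2 : Summable fun k : ℕ => (1 / 2 : ℝ) * (1 / 10) ^ (k + n) :=
    (summable_nat_add_iff n).mpr sum_geo
  refine (Summable.tsum_le_tsum (fun k => trm_le (k + n) x) h1 h2).trans ?_
  have h3 : (fun k : ℕ => (1 / 2 : ℝ) * (1 / 10) ^ (k + n)) =
      fun k : ℕ => ((1 / 2 : ℝ) * (1 / 10) ^ n) * (1 / 10) ^ k := by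
    funext k
    rw [pow_add]
    ring
  rw [h3, tsum_mul_left, tsum_geometric_of_lt_one (by norm_num) (by norm_num)]
  apply le_of_eq
  ring

theorem split (n : ℕ) (x : ℝ) : ∑' k, trm k x =
    ∑ k ∈ Finset.range n, trm k x + trm n x + ∑' k, trm (k + (n + 1)) x := by
  rw [← (sum_trm x).sum_add_tsum_nat_add (n + 1), Finset.sum_range_succ]

/-- Comparison of two values at distance less than two periods. -/
theorem cmp (n : ℕ) (x z : ℝ) (hz : |x - z| ≤ 2 * (1 / 10) ^ (4 * n)) :
    |∑ k ∈ Finset.range n, trm k z - ∑ k ∈ Finset.range n, trm k x| ≤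
      2 / 999 * (1 / 10) ^ n := by
  rw [abs_sub_comm]
  refine (head_lip n x z).trans ?_
  calc (1000 : ℝ) ^ n / 999 * |x - z| ≤ 1000 ^ n / 999 * (2 * (1 / 10) ^ (4 * n)) :=
        mul_le_mul_of_nonneg_left hz (by positivity)
    _ = 2 / 999 * (1000 ^ n * (1 / 10) ^ (4 * n)) := by ring
    _ = 2 / 999 * (1 / 10) ^ n := by
        congr 1
        rw [pow_mul, ← mul_pow]
        norm_num

theorem low (n : ℕ) (x z : ℝ) (hz : |x - z| ≤ 2 * (1 / 10) ^ (4 * n)) (m : ℤ)
    (hm : 10 ^ (4 * n) * z = m) :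
    ∑' k, trm k z ≤ ∑ k ∈ Finset.range n, trm k x + (0.06 : ℝ) * (1 / 10) ^ n := by
  rw [split n z]
  have h1 := abs_le.mp (cmp n x z hz)
  have h2 : trm n z = 0 := by
    unfold trm
    rw [hm, tau_int, mul_zero]
  have h3 := tail_le (n + 1) z
  have h4 : (1 / 10 : ℝ) ^ (n + 1) = (1 / 10) ^ n * (1 / 10) := pow_succ _ _
  have h5 : (0 : ℝ) < (1 / 10) ^ n := by positivity
  rw [h2]
  rw [h4] at h3
  nlinarith [h1.1, h1.2]

theorem high (n : ℕ) (x z : ℝ) (hz : |x - z| ≤ 2 * (1 / 10) ^ (4 * n)) (m : ℤ)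
    (hm : 10 ^ (4 * n) * z = m + 1 / 2) :
    ∑ k ∈ Finset.range n, trm k x + (0.49 : ℝ) * (1 / 10) ^ n ≤ ∑' k, trm k z := by
  rw [split n z]
  have h1 := abs_le.mp (cmp n x z hz)
  have h2 : trm n z = (1 / 10) ^ n * (1 / 2) := by
    unfold trm
    rw [hm, tau_half]
  have h3 := tail_nonneg (n + 1) z
  have h5 : (0 : ℝ) < (1 / 10) ^ n := by positivity
  rw [h2]
  nlinarith [h1.1, h1.2]

theorem t_fun1 : S_fun1 := by
  refine ⟨fun x => ∑' k, trm k x, ?_, ?_⟩
  · refine continuous_tsum (fun n => ?_) sum_geo (fun n x => ?_)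
    · unfold trm
      exact continuous_const.mul (tau_cont.comp (continuous_const.mul continuous_id))
    · rw [Real.norm_of_nonneg (trm_nonneg _ _)]
      exact trm_le n x
  · intro x δ hδ
    -- the scale
    obtain ⟨n, hn⟩ : ∃ n : ℕ, 2 * (1 / 10 : ℝ) ^ (4 * n) < δ := by
      obtain ⟨n, hn⟩ := exists_pow_lt_of_lt_one (half_pos hδ) (by norm_num : (1 / 10 : ℝ) < 1)
      refine ⟨n, ?_⟩
      have : (1 / 10 : ℝ) ^ (4 * n) ≤ (1 / 10) ^ n :=
        pow_le_pow_of_le_one (by norm_num) (by norm_num) (by omega)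
      linarith
    set H : ℝ := 10 ^ (4 * n) with hH
    set h : ℝ := (1 / 10) ^ (4 * n) with hh
    have hHpos : 0 < H := by positivity
    have hhpos : 0 < h := by positivity
    have hHh : H * h = 1 := by
      rw [hH, hh, ← mul_pow]
      norm_num
    -- points on the grid
    have grid : ∀ t : ℝ, H * (h * t) = t := fun t => by rw [← mul_assoc, hHh, one_mul]
    have hx : h * (H * x) = x := by rw [← mul_assoc, mul_comm h, hHh, one_mul]
    have fl1 := Int.floor_le (H * x)
    have fl2 := Int.lt_floor_add_one (H * x)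
    have ce1 := Int.le_ceil (H * x)
    have ce2 := Int.ceil_lt_add_one (H * x)
    -- from t in (H x, H x + 2) to z
    have right : ∀ t : ℝ, H * x < t → t < H * x + 2 → x < h * t ∧ h * t < x + δ ∧
        |x - h * t| ≤ 2 * h := by
      intro t h1 h2
      have h3 : h * (H * x) < h * t := mul_lt_mul_of_pos_left h1 hhpos
      have h4 : h * t < h * (H * x + 2) := mul_lt_mul_of_pos_left h2 hhpos
      rw [mul_add, hx] at h4
      rw [hx] at h3
      refine ⟨h3, by linarith, ?_⟩
      rw [abs_le]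
      constructor <;> linarith
    have left : ∀ t : ℝ, t < H * x → H * x - 2 < t → x - δ < h * t ∧ h * t < x ∧
        |x - h * t| ≤ 2 * h := by
      intro t h1 h2
      have h3 : h * t < h * (H * x) := mul_lt_mul_of_pos_left h1 hhpos
      have h4 : h * (H * x - 2) < h * t := mul_lt_mul_of_pos_left h2 hhpos
      rw [mul_sub, hx] at h4
      rw [hx] at h3
      refine ⟨by linarith, h3, ?_⟩
      rw [abs_le]
      constructor <;> linarith
    set c : ℝ := ∑ k ∈ Finset.range n, trm k x with hc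
    set e : ℝ := (1 / 10 : ℝ) ^ n with he
    have hepos : 0 < e := by positivity
    rcases lt_or_ge (∑' k, trm k x) (c + 0.3 * e) with hcase | hcase
    · -- larger values on both sides
      constructor
      · left
        obtain ⟨h1, h2, h3⟩ := left ((⌈H * x⌉ - 2 : ℤ) + 1 / 2) (by push_cast; linarith)
          (by push_cast; linarith)
        have h4 := high n x _ h3 (⌈H * x⌉ - 2) (grid _)
        exact ⟨_, h1, h2, by
          show (∑' k, trm k x) < _
          linarith⟩
      · right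
        obtain ⟨h1, h2, h3⟩ := right ((⌊H * x⌋ + 1 : ℤ) + 1 / 2) (by push_cast; linarith)
          (by push_cast; linarith)
        have h4 := high n x _ h3 (⌊H * x⌋ + 1) (grid _)
        exact ⟨_, h1, h2, by
          show (∑' k, trm k x) < _
          linarith⟩
    · constructor
      · right
        obtain ⟨h1, h2, h3⟩ := right ((⌊H * x⌋ + 1 : ℤ)) (by push_cast; linarith)
          (by push_cast; linarith)
        have h4 := low n x _ h3 (⌊H * x⌋ + 1) (grid _)
        exact ⟨_, h1, h2, by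
          show _ < (∑' k, trm k x)
          linarith⟩
      · left
        obtain ⟨h1, h2, h3⟩ := left ((⌈H * x⌉ - 1 : ℤ)) (by push_cast; linarith)
          (by push_cast; linarith)
        have h4 := low n x _ h3 (⌈H * x⌉ - 1) (grid _)
        exact ⟨_, h1, h2, by
          show _ < (∑' k, trm k x)
          linarith⟩

end Pool.Agent.Q220.WR
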