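import Pool.Agent.Q215.WR.Stm

set_option autoImplicit false

open Set Topology Filter

namespace Pool.Agent.Q220.WR

open Pool.Agent.Q215.WR

theorem t_outd : S_outd := by
  intro A hPI hOD f hf u v hx hy
  obtain ⟨x, hxu, hxA⟩ := hx
  obtain ⟨y, hyu, hyA⟩ := hy
  have hyA' : f y ∉ A := hyA
  have hxA' : f x ∈ A := hxA
  -- the open interval between `f x` and `f y`
  have key : ∃ w, w ∈ Set.uIcc (f x) (f y) ∧ w ∈ interior Aᶜ := by
    have hne : f x ≠ f y := fun h => hyA' (h ▸ hxA')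
    rcases lt_or_gt_of_ne hne with hlt | hlt
    · have h1 : (Ioo (f x) (f y) ∩ A).Nonempty := by
        by_contra hcon
        have hsub : Ioo (f x) (f y) ⊆ Aᶜ := fun z hz hzA => hcon ⟨z, hz, hzA⟩
        exact (hPI _ _ hlt).2 hsub (left_mem_Icc.mpr hlt.le) hxA'
      have h2 : (Ioo (f x) (f y) ∩ Aᶜ).Nonempty := by
        by_contra hcon
        have hsub : Ioo (f x) (f y) ⊆ A := fun z hz => by
          by_contra hzA
          exact hcon ⟨z, hz, hzA⟩
        exact hyA' ((hPI _ _ hlt).1 hsub (right_mem_Icc.mpr hlt.le))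
      obtain ⟨w, hw, hw2⟩ := hOD _ _ h1 h2
      exact ⟨w, Set.Icc_subset_uIcc (Ioo_subset_Icc_self hw), hw2⟩
    · have h1 : (Ioo (f y) (f x) ∩ A).Nonempty := by
        by_contra hcon
        have hsub : Ioo (f y) (f x) ⊆ Aᶜ := fun z hz hzA => hcon ⟨z, hz, hzA⟩
        exact (hPI _ _ hlt).2 hsub (right_mem_Icc.mpr hlt.le) hxA'
      have h2 : (Ioo (f y) (f x) ∩ Aᶜ).Nonempty := by
        by_contra hcon
        have hsub : Ioo (f y) (f x) ⊆ A := fun z hz => by
          by_contra hzA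
          exact hcon ⟨z, hz, hzA⟩
        exact hyA' ((hPI _ _ hlt).1 hsub (left_mem_Icc.mpr hlt.le))
      obtain ⟨w, hw, hw2⟩ := hOD _ _ h1 h2
      exact ⟨w, Set.Icc_subset_uIcc' (Ioo_subset_Icc_self hw), hw2⟩
  obtain ⟨w, hw, hwA⟩ := key
  obtain ⟨z, hz, hzw⟩ := intermediate_value_uIcc (hf.continuousOn) hw
  refine ⟨z, ?_, ?_⟩
  · have : Set.uIcc x y ⊆ Ioo u v := by
      intro t ht
      rcases Set.mem_uIcc.mp ht with h | h
      · exact ⟨hxu.1.trans_le h.1, h.2.trans_lt hyu.2⟩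
      · exact ⟨hyu.1.trans_le h.1, h.2.trans_lt hxu.2⟩
    exact this hz
  · have hopen : IsOpen (f ⁻¹' (interior Aᶜ)) := isOpen_interior.preimage hf
    have hsub : f ⁻¹' (interior Aᶜ) ⊆ (f ⁻¹' A)ᶜ := fun t ht htA => interior_subset ht htA
    refine interior_maximal hsub hopen ?_
    change f z ∈ interior Aᶜ
    rw [hzw]
    exact hwA

end Pool.Agent.Q220.WR
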